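import Pool.Agent.R550.TD.Final
import Pool.Agent.NPC.Dec

/-!
# Deciding whether the total domination number equals the sub-total domination number is NP-hard
-/

namespace Pool.Agent.Results.MP_bfbf95_lc.TDSEqHard

open Pool.Agent.NPC Pool.Agent.R550.TD

/-- Every language `L` in `NP` is reduced in polynomial time to the problem TDS-EQ, by a function `f`
all of whose values are graphs without isolated vertices. -/
theorem result : ∀ L : Set (List Bool), InNP L → ∃ f : List Bool → List (List ℕ),
    PolyTime (fun x => bits (f x)) ∧ ∀ x, NoIsolated (graph (f x)) ∧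
      (x ∈ L ↔ gammaT (graph (f x)) = subT (graph (f x))) := by
  intro L hL
  obtain ⟨f, hf, hpr, hfL⟩ := hard L hL
  exact ⟨f, PC.toPolyTime hf, fun x => ⟨hpr x, hfL x⟩⟩

end Pool.Agent.Results.MP_bfbf95_lc.TDSEqHard
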